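import Mathlib
import Pool.Agent.H99.JetDefs
import Pool.Agent.H99.Jet

set_option autoImplicit false

namespace Pool.Agent.Results.MP_c360fa_mp.Q1

open MvPolynomial Pool.Agent.H99.Jet

/-- Negated form of Q1: there are n > m > 1 and f = f(u_0..u_n), g = g(u_0..u_m) with
f_n, g_m nonzero and f * g = 0 such that H(g) is finite-dimensional. -/
theorem result :
    ∃ (n m : ℕ) (f g : A), m < n ∧ 1 < m ∧
      (∀ i ∈ f.vars, i ≤ n) ∧ pderiv n f ≠ 0 ∧
      (∀ i ∈ g.vars, i ≤ m) ∧ pderiv m g ≠ 0 ∧
      jetProd f g = 0 ∧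
      FiniteDimensional ℝ (Submodule.span ℝ {h : A | jetProd h g = 0}) := by
  classical
  refine ⟨4, 3, d g0, g0, by norm_num, by norm_num, ?_, ?_, ?_, ?_, star_dg, finiteDim⟩
  · have e : d g0 = X 4 + C 5 * X 1 ^ 4 * X 2 := by
      unfold g0
      rw [map_add, Derivation.leibniz_pow, d_X, d_X]
      simp only [smul_eq_mul, nsmul_eq_mul, map_ofNat]
      push_cast
      ring
    intro i hi
    rw [e] at hi
    rcases Finset.mem_union.1 (vars_add_subset _ _ hi) with h | h
    · simp at h; omega
    · rcases Finset.mem_union.1 (vars_mul _ _ h) with h | h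
      · rcases Finset.mem_union.1 (vars_mul _ _ h) with h | h
        · simp at h
        · have := vars_pow _ _ h
          simp at this; omega
      · simp at h; omega
  · rw [show (4:ℕ) = 3 + 1 from rfl, pd_d, pd_g0, pd_g0]
    simp
  · intro i hi
    have := g0_vars hi
    simp at this; omega
  · rw [pd_g0]; simp

end Pool.Agent.Results.MP_c360fa_mp.Q1
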